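import Mathlib

set_option autoImplicit false

/-!
# Finite quotients separating a finite subset of a finitely generated abelian group
-/

namespace Pool.Agent.N345.Kn

open scoped DirectSum

/-- a nonzero element of a finitely generated abelian group has a nonzero image in some
`ZMod M`, `M ≠ 0` -/
theorem exists_zmod {K : Type} [AddCommGroup K] [AddGroup.FG K] {x : K} (hx : x ≠ 0) :
    ∃ (M : ℕ) (_ : NeZero M) (φ : K →+ ZMod M), φ x ≠ 0 := by
  classical
  obtain ⟨n, ι, fι, p, hp, e, ⟨f⟩⟩ := AddCommGroup.equiv_free_prod_directSum_zmod K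
  have hfx : f x ≠ 0 := fun h => hx (f.map_eq_zero_iff.1 h)
  by_cases h1 : (f x).1 = 0
  · have h2 : (f x).2 ≠ 0 := fun h2 => hfx (Prod.ext h1 h2)
    obtain ⟨i, hi⟩ : ∃ i, (f x).2 i ≠ 0 := by
      by_contra hcon
      push Not at hcon
      exact h2 (DFinsupp.ext hcon)
    refine ⟨p i ^ e i, ⟨pow_ne_zero _ (hp i).ne_zero⟩,
      (DFinsupp.evalAddMonoidHom i).comp ((AddMonoidHom.snd _ _).comp f.toAddMonoidHom), ?_⟩
    exact hi
  · obtain ⟨i, hi⟩ : ∃ i, (f x).1 i ≠ 0 := by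
      by_contra hcon
      push Not at hcon
      exact h1 (Finsupp.ext hcon)
    refine ⟨((f x).1 i).natAbs + 1, ⟨Nat.succ_ne_zero _⟩,
      (Int.castAddHom _).comp ((Finsupp.applyAddHom i).comp
        ((AddMonoidHom.fst _ _).comp f.toAddMonoidHom)), ?_⟩
    show (((f x).1 i : ℤ) : ZMod (((f x).1 i).natAbs + 1)) ≠ 0
    rw [Ne, ZMod.intCast_zmod_eq_zero_iff_dvd]
    intro hd
    have h3 := Int.le_of_dvd (abs_pos.2 hi) ((dvd_abs _ _).2 hd)
    rw [Int.abs_eq_natAbs] at h3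
    push_cast at h3
    omega

/-- a finite subset of a finitely generated abelian group injects into a finite quotient -/
theorem exists_injOn {K : Type} [AddCommGroup K] [AddGroup.FG K] (S : Finset K) :
    ∃ (Q : Type) (_ : AddCommGroup Q) (_ : Fintype Q) (φ : K →+ Q), Set.InjOn φ S := by
  classical
  have h1 : ∀ x : K, ∃ (M : ℕ) (_ : NeZero M) (φ : K →+ ZMod M), x ≠ 0 → φ x ≠ 0 := by
    intro x
    by_cases hx : x = 0
    · exact ⟨1, ⟨one_ne_zero⟩, 0, fun h => absurd hx h⟩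
    · obtain ⟨M, hM, φ, h⟩ := exists_zmod hx
      exact ⟨M, hM, φ, fun _ => h⟩
  choose M hM φ hφ using h1
  let I : Type := {z : K × K // z ∈ S ×ˢ S}
  have : ∀ z : I, NeZero (M (z.1.1 - z.1.2)) := fun z => hM _
  refine ⟨∀ z : I, ZMod (M (z.1.1 - z.1.2)), inferInstance, inferInstance,
    AddMonoidHom.pi fun z => φ (z.1.1 - z.1.2), ?_⟩
  intro a ha b hb hab
  by_contra hne
  have h2 : φ (a - b) a = φ (a - b) b :=
    congrFun hab ⟨(a, b), Finset.mem_product.2 ⟨ha, hb⟩⟩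
  refine hφ (a - b) (sub_ne_zero.2 hne) ?_
  rw [map_sub, h2, sub_self]

end Pool.Agent.N345.Kn
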