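import Mathlib
import Pool.Agent.Helper450.Kneser
import Pool.Agent.N345.Kn.Sep

set_option autoImplicit false

/-!
# Kneser's theorem for difference sets in arbitrary abelian groups
-/

namespace Pool.Agent.N345.Kn

open Finset
open scoped Pointwise
open Pool.Agent.Helper450.Kneser

/-- finite groups -/
theorem diff_finite {Q : Type} [AddCommGroup Q] [Fintype Q] [DecidableEq Q] {A : Finset Q}
    (hA : A.Nonempty) :
    ∃ H : AddSubgroup Q, (∀ h ∈ H, h ∈ A - A) ∧ ∀ R ⊆ A,
      (∀ r ∈ R, ∀ r' ∈ R, r - r' ∈ H → r = r') →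
        2 * R.card * Nat.card H ≤ (A - A).card + Nat.card H := by
  classical
  have h1 := kneser' A (-A) hA hA.neg
  rw [← sub_eq_add_neg] at h1
  set H := stab (A - A) with hH
  have hcard : (fs H).card = Nat.card H := by
    rw [Nat.card_eq_fintype_card]
    have : (fs H).card = Fintype.card {x // x ∈ H} := by
      rw [Fintype.card_subtype]
      congr 1
    rw [this]
  obtain ⟨a, ha⟩ := hA
  have h0 : (0 : Q) ∈ A - A := by
    rw [← sub_self a]; exact Finset.sub_mem_sub ha ha
  refine ⟨H, fun h hh => ?_, fun R hR hRi => ?_⟩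
  · have := stab_add hh h0
    rwa [zero_add] at this
  · have h2 : R.card * (fs H).card ≤ (A + fs H).card := by
      rw [← Finset.card_product]
      refine Finset.card_le_card_of_injOn (fun z => z.1 + z.2) ?_ ?_
      · intro z hz
        have hz' := Finset.mem_product.1 (Finset.mem_coe.1 hz)
        exact Finset.mem_coe.2 (Finset.add_mem_add (hR hz'.1) hz'.2)
      · rintro ⟨x, y⟩ hz ⟨x', y'⟩ hz' heq
        have hz1 := Finset.mem_product.1 (Finset.mem_coe.1 hz)
        have hz2 := Finset.mem_product.1 (Finset.mem_coe.1 hz')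
        have e : x + y = x' + y' := heq
        have e2 : x - x' = y' - y := by
          rw [sub_eq_sub_iff_add_eq_add, e, add_comm]
        have e3 : x = x' := by
          refine hRi x hz1.1 x' hz2.1 ?_
          rw [e2]
          exact H.sub_mem (mem_fs.1 hz2.2) (mem_fs.1 hz1.2)
        subst e3
        rw [add_right_inj] at e
        rw [e]
    have h3 : (-A + fs H).card = (A + fs H).card := by
      have e : -A + fs H = -(A + fs H) := by
        ext x
        rw [Finset.mem_neg', Finset.mem_add, Finset.mem_add]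
        constructor
        · rintro ⟨y, hy, z, hz, rfl⟩
          refine ⟨-y, Finset.mem_neg'.1 hy, -z, mem_fs.2 (H.neg_mem (mem_fs.1 hz)), ?_⟩
          abel
        · rintro ⟨y, hy, z, hz, hyz⟩
          refine ⟨-y, ?_, -z, mem_fs.2 (H.neg_mem (mem_fs.1 hz)), ?_⟩
          · rw [Finset.mem_neg', neg_neg]; exact hy
          · rw [← neg_add, hyz, neg_neg]
      rw [e, Finset.card_neg]
    rw [h3] at h1
    rw [← hcard]
    nlinarith

/-- finitely generated groups -/
theorem diff_fg {K : Type} [AddCommGroup K] [AddGroup.FG K] [DecidableEq K] {A : Finset K}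
    (hA : A.Nonempty) :
    ∃ H : AddSubgroup K, (∀ h ∈ H, h ∈ A - A) ∧ ∀ R ⊆ A,
      (∀ r ∈ R, ∀ r' ∈ R, r - r' ∈ H → r = r') →
        2 * R.card * Nat.card H ≤ (A - A).card + Nat.card H := by
  classical
  set S : Finset K := (A - A) - (A - A) with hS
  obtain ⟨Q, iQ, fQ, φ, hφ⟩ := exists_injOn S
  obtain ⟨a, ha⟩ := hA
  have h0 : (0 : K) ∈ A - A := by
    rw [← sub_self a]; exact Finset.sub_mem_sub ha ha
  have hDS : ∀ {x}, x ∈ A - A → x ∈ S := by
    intro x hx
    have := Finset.sub_mem_sub hx h0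
    rwa [sub_zero] at this
  have hinjA : Set.InjOn φ A := by
    intro x hx y hy hxy
    have h1 : φ (x - a) = φ (y - a) := by rw [map_sub, map_sub, hxy]
    have h2 := hφ (hDS (Finset.sub_mem_sub hx ha)) (hDS (Finset.sub_mem_sub hy ha)) h1
    exact sub_left_injective h2
  have hA' : (A.image φ).Nonempty := ⟨φ a, Finset.mem_image_of_mem _ ha⟩
  obtain ⟨H', hH'1, hH'2⟩ := diff_finite hA'
  have hDim : A.image φ - A.image φ = (A - A).image φ := by
    ext x
    rw [Finset.mem_sub, Finset.mem_image]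
    constructor
    · rintro ⟨y, hy, z, hz, rfl⟩
      obtain ⟨y', hy', rfl⟩ := Finset.mem_image.1 hy
      obtain ⟨z', hz', rfl⟩ := Finset.mem_image.1 hz
      exact ⟨y' - z', Finset.sub_mem_sub hy' hz', map_sub _ _ _⟩
    · rintro ⟨y, hy, rfl⟩
      obtain ⟨y', hy', z', hz', rfl⟩ := Finset.mem_sub.1 hy
      exact ⟨φ y', Finset.mem_image_of_mem _ hy', φ z', Finset.mem_image_of_mem _ hz',
        (map_sub _ _ _).symm⟩
  have hDc : (A.image φ - A.image φ).card = (A - A).card := by
    rw [hDim]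
    exact Finset.card_image_of_injOn (hφ.mono fun x hx => hDS hx)
  -- the subgroup
  have hkey : ∀ x, x ∈ S → φ x ∈ H' → x ∈ A - A := by
    intro x hx hx'
    have h1 := hH'1 _ hx'
    rw [hDim] at h1
    obtain ⟨y, hy, hyx⟩ := Finset.mem_image.1 h1
    have := hφ (hDS hy) hx hyx
    rwa [← this]
  let H : AddSubgroup K :=
    { carrier := {x | x ∈ A - A ∧ φ x ∈ H'}
      zero_mem' := ⟨h0, by rw [map_zero]; exact H'.zero_mem⟩
      add_mem' := by
        rintro x y ⟨hx, hx'⟩ ⟨hy, hy'⟩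
        have h1 : φ (x + y) ∈ H' := by rw [map_add]; exact H'.add_mem hx' hy'
        refine ⟨hkey _ ?_ h1, h1⟩
        have hny : -y ∈ A - A := by
          obtain ⟨u, hu, v, hv, rfl⟩ := Finset.mem_sub.1 hy
          rw [neg_sub]; exact Finset.sub_mem_sub hv hu
        have := Finset.sub_mem_sub hx hny
        rwa [sub_neg_eq_add] at this
      neg_mem' := by
        rintro y ⟨hy, hy'⟩
        refine ⟨?_, ?_⟩
        · obtain ⟨u, hu, v, hv, rfl⟩ := Finset.mem_sub.1 hy
          rw [neg_sub]; exact Finset.sub_mem_sub hv hu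
        · show φ (-y) ∈ H'
          rw [map_neg]; exact H'.neg_mem hy' }
  have hHmem : ∀ {x}, x ∈ H ↔ x ∈ A - A ∧ φ x ∈ H' := Iff.rfl
  have hHc : Nat.card H = Nat.card H' := by
    refine Nat.card_eq_of_bijective (fun x : H => (⟨φ x, (hHmem.1 x.2).2⟩ : H')) ⟨?_, ?_⟩
    · intro x y hxy
      have h1 : φ x = φ y := congrArg Subtype.val hxy
      exact Subtype.ext (hφ (hDS (hHmem.1 x.2).1) (hDS (hHmem.1 y.2).1) h1)
    · rintro ⟨y, hy⟩
      have h1 := hH'1 _ hy
      rw [hDim] at h1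
      obtain ⟨x, hx, hxy⟩ := Finset.mem_image.1 h1
      exact ⟨⟨x, hHmem.2 ⟨hx, by rw [hxy]; exact hy⟩⟩, Subtype.ext hxy⟩
  refine ⟨H, fun h hh => (hHmem.1 hh).1, fun R hR hRi => ?_⟩
  have h1 := hH'2 (R.image φ) (Finset.image_subset_image hR) ?_
  · rw [hDc, Finset.card_image_of_injOn (hinjA.mono fun x hx => hR hx)] at h1
    rw [hHc]
    exact h1
  · intro r hr r' hr' hrr
    obtain ⟨x, hx, rfl⟩ := Finset.mem_image.1 hr
    obtain ⟨y, hy, rfl⟩ := Finset.mem_image.1 hr'
    rw [← map_sub] at hrr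
    have h2 : x - y ∈ H := hHmem.2 ⟨Finset.sub_mem_sub (hR hx) (hR hy), hrr⟩
    rw [hRi x hx y hy h2]

/-- **Kneser's theorem for difference sets.** -/
theorem diff_kneser {G : Type} [AddCommGroup G] [DecidableEq G] {A : Finset G}
    (hA : A.Nonempty) :
    ∃ H : AddSubgroup G, (∀ h ∈ H, h ∈ A - A) ∧ ∀ R ⊆ A,
      (∀ r ∈ R, ∀ r' ∈ R, r - r' ∈ H → r = r') →
        2 * R.card * Nat.card H ≤ (A - A).card + Nat.card H := by
  classical
  let K := AddSubgroup.closure (A : Set G)
  have hfg : AddGroup.FG K := (AddGroup.fg_iff_addSubgroup_fg K).2 ⟨A, rfl⟩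
  let i : K →+ G := K.subtype
  have hi : Function.Injective i := Subtype.val_injective
  let AK : Finset K := A.attach.image fun a => ⟨a.1, AddSubgroup.subset_closure a.2⟩
  have hmem : ∀ x : K, x ∈ AK ↔ (x : G) ∈ A := by
    intro x
    constructor
    · intro hx
      obtain ⟨a, -, rfl⟩ := Finset.mem_image.1 hx
      exact a.2
    · intro hx
      exact Finset.mem_image.2 ⟨⟨x, hx⟩, Finset.mem_attach _ _, Subtype.ext rfl⟩
  obtain ⟨a, ha⟩ := hA
  have hAK : AK.Nonempty :=
    ⟨⟨a, AddSubgroup.subset_closure ha⟩, (hmem _).2 ha⟩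
  obtain ⟨H, hH1, hH2⟩ := @diff_fg K _ hfg _ AK hAK
  have hD : (AK - AK).image i = A - A := by
    ext x
    rw [Finset.mem_image, Finset.mem_sub]
    constructor
    · rintro ⟨z, hz, rfl⟩
      obtain ⟨u, hu, v, hv, rfl⟩ := Finset.mem_sub.1 hz
      exact ⟨u, (hmem u).1 hu, v, (hmem v).1 hv, rfl⟩
    · rintro ⟨u, hu, v, hv, rfl⟩
      exact ⟨⟨u, AddSubgroup.subset_closure hu⟩ - ⟨v, AddSubgroup.subset_closure hv⟩,
        Finset.sub_mem_sub ((hmem _).2 hu) ((hmem _).2 hv), rfl⟩
  have hDc : (AK - AK).card = (A - A).card := by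
    rw [← hD, Finset.card_image_of_injective _ hi]
  refine ⟨H.map i, ?_, fun R hR hRi => ?_⟩
  · rintro _ ⟨k, hk, rfl⟩
    rw [← hD]
    exact Finset.mem_image_of_mem _ (hH1 k hk)
  · let RK : Finset K := AK.filter fun x => (x : G) ∈ R
    have hRc : RK.card = R.card := by
      rw [← Finset.card_image_of_injective RK hi]
      congr 1
      ext x
      rw [Finset.mem_image]
      constructor
      · rintro ⟨y, hy, rfl⟩
        exact (Finset.mem_filter.1 hy).2
      · intro hx
        exact ⟨⟨x, AddSubgroup.subset_closure (hR hx)⟩,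
          Finset.mem_filter.2 ⟨(hmem _).2 (hR hx), hx⟩, rfl⟩
    have h1 := hH2 RK (Finset.filter_subset _ _) ?_
    · rw [AddSubgroup.card_map_of_injective hi, ← hDc, ← hRc]
      exact h1
    · intro r hr r' hr' hrr
      refine Subtype.ext (hRi r (Finset.mem_filter.1 hr).2 r' (Finset.mem_filter.1 hr').2 ?_)
      exact ⟨r - r', hrr, rfl⟩

/-- systems of representatives -/
theorem exists_reps {G : Type} [AddCommGroup G] [DecidableEq G] (H : AddSubgroup G)
    (A : Finset G) : ∃ R ⊆ A, (∀ a ∈ A, ∃ r ∈ R, a - r ∈ H) ∧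
      ∀ r ∈ R, ∀ r' ∈ R, r - r' ∈ H → r = r' := by
  classical
  let ρ : G ⧸ H → G := fun c => if h : ∃ a ∈ A, (QuotientAddGroup.mk a : G ⧸ H) = c
    then h.choose else 0
  have hρ : ∀ a ∈ A, ρ (QuotientAddGroup.mk a) ∈ A ∧
      (QuotientAddGroup.mk (ρ (QuotientAddGroup.mk a)) : G ⧸ H) = QuotientAddGroup.mk a := by
    intro a ha
    have h : ∃ a' ∈ A, (QuotientAddGroup.mk a' : G ⧸ H) = QuotientAddGroup.mk a := ⟨a, ha, rfl⟩
    have e : ρ (QuotientAddGroup.mk a) = h.choose := dif_pos h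
    rw [e]
    exact h.choose_spec
  refine ⟨A.image fun a => ρ (QuotientAddGroup.mk a), ?_, ?_, ?_⟩
  · intro x hx
    obtain ⟨a, ha, rfl⟩ := Finset.mem_image.1 hx
    exact (hρ a ha).1
  · intro a ha
    refine ⟨ρ (QuotientAddGroup.mk a), Finset.mem_image_of_mem _ ha, ?_⟩
    have h1 := (hρ a ha).2
    have h2 := QuotientAddGroup.eq.1 h1
    rw [sub_eq_neg_add]
    exact h2
  · intro r hr r' hr' hrr
    obtain ⟨a, ha, rfl⟩ := Finset.mem_image.1 hr
    obtain ⟨b, hb, rfl⟩ := Finset.mem_image.1 hr'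
    have h1 : (QuotientAddGroup.mk (ρ (QuotientAddGroup.mk b)) : G ⧸ H)
        = QuotientAddGroup.mk (ρ (QuotientAddGroup.mk a)) := by
      refine QuotientAddGroup.eq.2 ?_
      rw [← sub_eq_neg_add]
      exact hrr
    rw [(hρ a ha).2, (hρ b hb).2] at h1
    rw [h1]

end Pool.Agent.N345.Kn
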